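import Pool.Agent.helper53.AU.SpecG3

/-!
# Project au, module C2

The centraliser `M` of `ρ`: every `s ∈ M` with `s * s ∈ E` lies in `E`. Otherwise (Frattini) there is an
involution `x ∈ M` outside `E` normalising a Sylow 3-subgroup of `E`, so a point stabiliser of `E`; by parity it
normalises a second one, so a two point stabiliser `C`, which is cyclic of order `(3^c-1)/2`, and an involution
`s` of `E` inverts `C`. So an involution centralises an element of prime order dividing `(3^c-1)/2`.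
-/

namespace Pool.Agent.helper53.AU

open scoped Classical Pointwise

theorem C2_second {X : Type} [Finite X] (f : X → X) (hf : ∀ x, f (f x) = x) (w : X)
    (hw : f w = w) (he : Even (Nat.card X)) : ∃ w', w' ≠ w ∧ f w' = w' := by
  classical
  have := Fintype.ofFinite X
  by_contra hcon
  push Not at hcon
  have h1 : ∑ x ∈ (Finset.univ.erase w : Finset X), (1 : ZMod 2) = 0 := by
    refine Finset.sum_involution (fun a _ => f a) ?_ ?_ ?_ ?_
    · intro a ha
      decide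
    · intro a ha _
      exact hcon a (Finset.ne_of_mem_erase ha)
    · intro a ha
      refine Finset.mem_erase.2 ⟨?_, Finset.mem_univ _⟩
      intro h
      have : a = w := by rw [← hf a, h, hw]
      exact (Finset.ne_of_mem_erase ha) this
    · intro a ha
      exact hf a
  rw [Finset.sum_const, Finset.card_erase_of_mem (Finset.mem_univ _), nsmul_eq_mul, mul_one,
    Finset.card_univ, ← Nat.card_eq_fintype_card] at h1
  have h2 : 2 ∣ Nat.card X - 1 := (ZMod.natCast_eq_zero_iff _ _).1 h1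
  have h3 : 0 < Nat.card X := by
    have : Nonempty X := ⟨w⟩
    exact Nat.card_pos
  obtain ⟨m, hm⟩ := he
  omega

/-- elements of order prime to 3 and of 3-power order -/
theorem C2_cop {G : Type} [Group G] (x : G) (m n : ℕ) (h : Nat.Coprime m n) (hm : x ^ m = 1)
    (hn : x ^ n = 1) : x = 1 := by
  have h1 : orderOf x ∣ m := orderOf_dvd_of_pow_eq_one hm
  have h2 : orderOf x ∣ n := orderOf_dvd_of_pow_eq_one hn
  have h3 : orderOf x ∣ 1 := by
    have := Nat.dvd_gcd h1 h2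
    rwa [Nat.Coprime.gcd_eq_one h] at this
  exact orderOf_eq_one_iff.1 (Nat.dvd_one.1 h3)

theorem C2_pow {G : Type} [Group G] (K : Subgroup G) (g : G) (hg : g ∈ K) :
    g ^ Nat.card K = 1 := by
  have h1 : (⟨g, hg⟩ : K) ^ Nat.card K = 1 := pow_card_eq_one'
  have h2 := congrArg (Subtype.val) h1
  rw [SubmonoidClass.coe_pow] at h2
  exact h2

theorem C2_b3 (c : ℕ) (hc3 : 3 ≤ c) : ¬ 3 ∣ (3 ^ c - 1) / 2 ∧ 1 < (3 ^ c - 1) / 2 := by
  have h1 : 27 ≤ 3 ^ c := by
    calc 27 = 3 ^ 3 := by norm_num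
      _ ≤ 3 ^ c := Nat.pow_le_pow_right (by norm_num) hc3
  have h2 : Odd (3 ^ c) := Odd.pow (by decide)
  have h3 : 3 ∣ 3 ^ c := dvd_pow_self 3 (by omega)
  obtain ⟨m, hm⟩ := h2
  constructor
  · intro h
    obtain ⟨k, hk⟩ := h
    obtain ⟨j, hj⟩ := h3
    omega
  · omega

theorem C2_b2 (c : ℕ) (hc : Odd c) : 3 ^ c % 8 = 3 := by
  obtain ⟨m, hm⟩ := hc
  subst hm
  rw [pow_succ, pow_mul, Nat.mul_mod, Nat.pow_mod]
  norm_num

theorem C2_orb {G X : Type} [Group G] [MulAction G X] (x : X) :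
    Nat.card (MulAction.orbit G x) * Nat.card (MulAction.stabilizer G x) = Nat.card G := by
  rw [← Nat.card_prod]
  exact Nat.card_congr (MulAction.orbitProdStabilizerEquivGroup G x)

/-- the two point stabiliser -/
theorem C2_two {G X : Type} [Group G] [Finite G] [MulAction G X] [Finite X]
    (hT : TwoTrans G X) (n b : ℕ) (hn : 0 < n) (hX : Nat.card X = n + 1)
    (hstab : ∀ α : X, Nat.card (MulAction.stabilizer G α) = n * b) (w w' : X) (hne : w' ≠ w) :
    Nat.card (MulAction.stabilizer G w ⊓ MulAction.stabilizer G w' : Subgroup G) = b := by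
  classical
  have h1 := C2_orb (G := MulAction.stabilizer G w) w'
  have h2 : MulAction.orbit (MulAction.stabilizer G w) w' = {w}ᶜ := by
    ext v
    simp only [Set.mem_compl_iff, Set.mem_singleton_iff]
    constructor
    · rintro ⟨g, rfl⟩ hv
      apply hne
      have h3 : (g : G) • w' = w := hv
      have h4 : (g : G) • w = w := g.2
      exact smul_left_cancel (g : G) (h3.trans h4.symm)
    · intro hv
      obtain ⟨g, hg1, hg2⟩ := hT w w' w v (Ne.symm hne) (Ne.symm hv)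
      exact ⟨⟨g, hg1⟩, hg2⟩
  have h3 : Nat.card (MulAction.orbit (MulAction.stabilizer G w) w') = n := by
    rw [h2]
    have h4 : Nat.card ({w}ᶜ : Set X) + Nat.card ({w} : Set X) = Nat.card X := by
      have := Set.ncard_add_ncard_compl ({w} : Set X)
      rw [Set.ncard_def, Set.ncard_def] at this
      simpa [Nat.card_coe_set_eq, Set.ncard_def, add_comm] using this
    have h5 : Nat.card ({w} : Set X) = 1 := by simp
    omega
  have h4 : Nat.card (MulAction.stabilizer (MulAction.stabilizer G w) w') =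
      Nat.card (MulAction.stabilizer G w ⊓ MulAction.stabilizer G w' : Subgroup G) := by
    refine Nat.card_congr ⟨fun g => ⟨((g : MulAction.stabilizer G w) : G), ?_⟩,
      fun g => ⟨⟨(g : G), ?_⟩, ?_⟩, ?_, ?_⟩
    · exact ⟨(g : MulAction.stabilizer G w).2, g.2⟩
    · exact (Subgroup.mem_inf.1 g.2).1
    · exact (Subgroup.mem_inf.1 g.2).2
    · intro g
      rfl
    · intro g
      rfl
  rw [h3, h4, hstab w] at h1
  exact Nat.eq_of_mul_eq_mul_left hn h1

/-- a subgroup of order prime to 3 of a ThreeCyc group is commutative -/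
theorem C2_comm {G : Type} [Group G] [Finite G] (H C : Subgroup G) (hH : ThreeCyc H)
    (hCH : C ≤ H) (b : ℕ) (hb : ¬ 3 ∣ b) (hC : Nat.card C = b) :
    ∀ x ∈ C, ∀ y ∈ C, x * y = y * x := by
  obtain ⟨P, c, hP, hc, hPp, hPn, h3, hgen⟩ := hH
  intro x hx y hy
  have hxy : x * y * x⁻¹ * y⁻¹ ∈ P := by
    obtain ⟨p, hp, m, hpm⟩ := hgen x (hCH hx)
    obtain ⟨q, hq, n, hqn⟩ := hgen y (hCH hy)
    have hcm : ∀ k : ℕ, ∀ r ∈ P, c ^ k * r * (c ^ k)⁻¹ ∈ P :=
      fun k r hr => hPn _ (H.pow_mem hc k) r hr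
    have hcm' : ∀ k : ℕ, ∀ r ∈ P, (c ^ k)⁻¹ * r * (c ^ k) ∈ P := by
      intro k r hr
      have := hPn ((c ^ k)⁻¹) (H.inv_mem (H.pow_mem hc k)) r hr
      simpa using this
    have e : x * y * x⁻¹ * y⁻¹ = p * (c ^ m * q * (c ^ m)⁻¹) *
        (c ^ n * p⁻¹ * (c ^ n)⁻¹) * q⁻¹ := by
      subst hpm hqn
      have hcc : c ^ m * c ^ n = c ^ n * c ^ m := by
        rw [← pow_add, ← pow_add, add_comm]
      have hcc2 : c ^ n * (c ^ m)⁻¹ = (c ^ m)⁻¹ * c ^ n := by
        rw [← mul_right_inj (c ^ m), mul_inv_cancel_left, ← mul_assoc, hcc, mul_assoc,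
          mul_inv_cancel, mul_one]
      calc p * c ^ m * (q * c ^ n) * (p * c ^ m)⁻¹ * (q * c ^ n)⁻¹
          = p * c ^ m * q * (c ^ n * (c ^ m)⁻¹) * p⁻¹ * (c ^ n)⁻¹ * q⁻¹ := by group
        _ = p * c ^ m * q * ((c ^ m)⁻¹ * c ^ n) * p⁻¹ * (c ^ n)⁻¹ * q⁻¹ := by rw [hcc2]
        _ = _ := by group
    rw [e]
    exact P.mul_mem (P.mul_mem (P.mul_mem hp (hcm m q hq)) (hcm n _ (P.inv_mem hp)))
      (P.inv_mem hq)
  have hxyC : x * y * x⁻¹ * y⁻¹ ∈ C :=
    C.mul_mem (C.mul_mem (C.mul_mem hx hy) (C.inv_mem hx)) (C.inv_mem hy)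
  obtain ⟨k, hk⟩ := hPp ⟨_, hxy⟩
  have hk' : (x * y * x⁻¹ * y⁻¹) ^ (3 ^ k) = 1 := by
    have := congrArg (Subtype.val) hk
    simpa using this
  have hb' : (x * y * x⁻¹ * y⁻¹) ^ b = 1 := by
    rw [← hC]
    exact C2_pow C _ hxyC
  have hcop : Nat.Coprime (3 ^ k) b :=
    Nat.Coprime.pow_left k ((Nat.Prime.coprime_iff_not_dvd Nat.prime_three).2 hb)
  have h1 := C2_cop _ _ _ hcop hk' hb'
  have h2 : x * y * x⁻¹ = y := by
    rw [← mul_inv_eq_one]
    exact h1
  rw [← mul_inv_eq_iff_eq_mul]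
  exact h2

/-- elements of 3-power order of a ThreeCyc group -/
theorem C2_three {G : Type} [Group G] [Finite G] (H P : Subgroup G) (c : G)
    (hc : c ∈ H) (hPn : ∀ x ∈ H, ∀ p ∈ P, x * p * x⁻¹ ∈ P) (hPp : IsPGroup 3 P)
    (h3 : ¬ 3 ∣ orderOf c) (hgen : ∀ x ∈ H, ∃ p ∈ P, ∃ n : ℕ, x = p * c ^ n)
    (x : G) (hx : x ∈ H) (k : ℕ) (hk : x ^ (3 ^ k) = 1) : x ∈ P := by
  obtain ⟨p, hp, n, rfl⟩ := hgen x hx
  have hcn : c ^ n ∈ H := H.pow_mem hc n
  -- powers modulo `P`
  have hpow : ∀ m : ℕ, (p * c ^ n) ^ m * ((c ^ n) ^ m)⁻¹ ∈ P := by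
    intro m
    induction m with
    | zero => simp
    | succ m ih =>
      have e : (p * c ^ n) ^ (m + 1) * ((c ^ n) ^ (m + 1))⁻¹ =
          ((p * c ^ n) ^ m * ((c ^ n) ^ m)⁻¹) *
            ((c ^ n) ^ m * p * ((c ^ n) ^ m)⁻¹) := by
        rw [pow_succ, pow_succ]
        group
      rw [e]
      exact P.mul_mem ih (hPn _ (H.pow_mem hcn m) p hp)
  have h1 := hpow (3 ^ k)
  rw [hk, one_mul] at h1
  have h2 : (c ^ n) ^ (3 ^ k) ∈ P := by
    have := P.inv_mem h1
    rwa [inv_inv] at this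
  obtain ⟨j, hj⟩ := hPp ⟨_, h2⟩
  have hj' : ((c ^ n) ^ (3 ^ k)) ^ (3 ^ j) = 1 := by
    have := congrArg (Subtype.val) hj
    simpa using this
  have h4 : (c ^ n) ^ (3 ^ (k + j)) = 1 := by
    rw [pow_add, pow_mul]
    exact hj'
  have h5 : (c ^ n) ^ (orderOf c) = 1 := by
    rw [← pow_mul, mul_comm, pow_mul, pow_orderOf_eq_one, one_pow]
  have h6 : c ^ n = 1 := C2_cop _ _ _
    (Nat.Coprime.pow_left (k + j) ((Nat.Prime.coprime_iff_not_dvd Nat.prime_three).2 h3)) h4 h5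
  rw [h6, mul_one]
  exact hp

/-- a Sylow 3-subgroup has one fixed point, whose stabiliser is the normaliser -/
theorem C2_norm {G X : Type} [Group G] [MulAction G X] {B : Subgroup G} (hLL : LL G X B)
    (hT : TwoTrans G X) (c : ℕ) (hc3 : 3 ≤ c) (hX : Nat.card X = 3 ^ c + 1)
    (hstab : ∀ α : X, Nat.card (MulAction.stabilizer G α) = 3 ^ c * ((3 ^ c - 1) / 2))
    (P : Subgroup G) (hP : Nat.card P = 3 ^ c) :
    ∃ w : X, ∀ g : G, g • w = w ↔ ∀ p ∈ P, g * p * g⁻¹ ∈ P := by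
  classical
  have := hLL.finL
  have := hLL.finΩ
  have : Fact (Nat.Prime 3) := ⟨Nat.prime_three⟩
  have hb := C2_b3 c hc3
  have h3 : 3 ∣ 3 ^ c := dvd_pow_self 3 (by omega)
  have hPp : IsPGroup 3 P := IsPGroup.of_card hP
  -- a fixed point
  have hfix : ∃ w : X, ∀ p ∈ P, p • w = w := by
    have h1 := hPp.card_modEq_card_fixedPoints X
    have h2 : Nat.card (MulAction.fixedPoints P X) ≠ 0 := by
      intro h0
      rw [h0, hX] at h1
      have h4 : 3 ∣ 3 ^ c + 1 := (Nat.modEq_zero_iff_dvd).1 h1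
      omega
    have h5 : Nonempty (MulAction.fixedPoints P X) := by
      by_contra hn
      rw [not_nonempty_iff] at hn
      exact h2 (Nat.card_of_isEmpty)
    obtain ⟨w, hw⟩ := h5
    exact ⟨w, fun p hp => hw ⟨p, hp⟩⟩
  obtain ⟨w, hw⟩ := hfix
  refine ⟨w, fun g => ⟨?_, ?_⟩⟩
  · intro hg
    obtain ⟨P0, d, hP0, hd, hPp0, hPn, h3d, hgen⟩ := hLL.stab w
    have hle : P ≤ P0 := by
      intro p hp
      obtain ⟨k, hk⟩ := hPp ⟨p, hp⟩
      have hk' : p ^ (3 ^ k) = 1 := by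
        have := congrArg (Subtype.val) hk
        simpa using this
      exact C2_three _ P0 d hd hPn hPp0 h3d hgen p (hw p hp) k hk'
    obtain ⟨k, hk⟩ := IsPGroup.iff_card.1 hPp0
    have hdvd : Nat.card P0 ∣ 3 ^ c * ((3 ^ c - 1) / 2) := by
      rw [← hstab w]
      exact Subgroup.card_dvd_of_le hP0
    have hdvd2 : Nat.card P0 ∣ 3 ^ c := by
      rw [hk] at hdvd ⊢
      exact Nat.Coprime.dvd_of_dvd_mul_right
        (Nat.Coprime.pow_left k ((Nat.Prime.coprime_iff_not_dvd Nat.prime_three).2 hb.1)) hdvd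
    have heq : P = P0 := by
      apply Subgroup.eq_of_le_of_card_ge hle
      rw [hP]
      exact Nat.le_of_dvd (by positivity) hdvd2
    intro p hp
    rw [heq] at hp ⊢
    exact hPn g hg p hp
  · intro hg
    by_contra hne
    have hsurj : ∀ p ∈ P, g⁻¹ * p * g ∈ P := by
      have hinj : Function.Injective (fun p : P => (⟨g * p * g⁻¹, hg p p.2⟩ : P)) := by
        intro p q hpq
        have h1 : g * (p : G) * g⁻¹ = g * (q : G) * g⁻¹ := congrArg Subtype.val hpq
        exact Subtype.ext (mul_left_cancel (mul_right_cancel h1))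
      have hs := Finite.surjective_of_injective hinj
      intro p hp
      obtain ⟨q, hq⟩ := hs ⟨p, hp⟩
      have h1 : g * (q : G) * g⁻¹ = p := congrArg Subtype.val hq
      rw [← h1]
      have h2 : g⁻¹ * (g * (q : G) * g⁻¹) * g = q := by group
      rw [h2]
      exact q.2
    have hw' : ∀ p ∈ P, p • (g • w) = g • w := by
      intro p hp
      have h1 := hw _ (hsurj p hp)
      rw [← mul_smul]
      have h2 : p * g = g * (g⁻¹ * p * g) := by group
      rw [h2, mul_smul, h1]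
    have hle : P ≤ MulAction.stabilizer G w ⊓ MulAction.stabilizer G (g • w) := by
      intro p hp
      exact ⟨hw p hp, hw' p hp⟩
    have h1 := C2_two hT (3 ^ c) ((3 ^ c - 1) / 2) (by positivity) hX hstab w (g • w) hne
    have h2 : 3 ^ c ∣ (3 ^ c - 1) / 2 := by
      have := Subgroup.card_dvd_of_le hle
      rwa [hP, h1] at this
    exact hb.1 (dvd_trans h3 h2)

theorem C2_main {G X : Type} [Group G] [MulAction G X] {B : Subgroup G} (hLL : LL G X B)
    (hT : TwoTrans G X)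
    (hcent : ∀ τ : G, IsInv τ → Nat.card {g : G // g * τ = τ * g} = Nat.card X)
    (c : ℕ) (hc : Odd c) (hc3 : 3 ≤ c) (hX : Nat.card X = 3 ^ c + 1)
    (hstab : ∀ α : X, Nat.card (MulAction.stabilizer G α) = 3 ^ c * ((3 ^ c - 1) / 2))
    (φ : MulAut G) (hφ : ∀ g, φ (φ g) = g) (w : X) (hw : ∀ g : G, g • w = w → φ g • w = w) :
    ∃ c0 s : G, c0 ≠ 1 ∧ c0 ^ ((3 ^ c - 1) / 2) = 1 ∧ φ c0 = s * c0 * s⁻¹ := by
  classical
  have := hLL.finL
  have := hLL.finΩ
  have := hLL.trans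
  have hb := C2_b3 c hc3
  have h8 := C2_b2 c hc
  have hbodd : Odd ((3 ^ c - 1) / 2) := by
    rw [Nat.odd_iff]
    omega
  -- the induced involution of the points
  have htr : ∀ v : X, ∃ g : G, g • w = v := fun v => MulAction.exists_smul_eq G w v
  choose gv hgv using htr
  have hwell : ∀ g h : G, g • w = h • w → φ g • w = φ h • w := by
    intro g h hgh
    have h1 : (h⁻¹ * g) • w = w := by
      rw [mul_smul, hgh, inv_smul_smul]
    have h2 := hw _ h1
    rw [map_mul, map_inv, mul_smul] at h2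
    rw [eq_comm]
    exact eq_inv_smul_iff.1 h2.symm
  have hf : ∀ g : G, φ (gv (g • w)) • w = φ g • w := fun g => hwell _ _ (hgv _)
  have hff : ∀ v : X, φ (gv (φ (gv v) • w)) • w = v := by
    intro v
    rw [hf, hφ, hgv]
  have hfw : φ (gv w) • w = w := hw _ (hgv w)
  have heven : Even (Nat.card X) := by
    rw [hX, Nat.even_iff]
    omega
  obtain ⟨w', hne, hw'⟩ := C2_second (fun v => φ (gv v) • w) hff w hfw heven
  have hw' : φ (gv w') • w = w' := hw'
  have hstw' : ∀ g : G, g • w' = w' → φ g • w' = w' := by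
    intro g hg
    have h1 : ((gv w')⁻¹ * g * gv w') • w = w := by
      rw [mul_smul, hgv, mul_smul, hg]
      exact inv_smul_eq_iff.2 (hgv w').symm
    have h2 := hw _ h1
    rw [map_mul, map_mul, map_inv, mul_smul, hw', mul_smul] at h2
    have h3 := inv_smul_eq_iff.1 h2
    rw [h3, hw']
  -- the two point stabiliser
  have hC := C2_two hT (3 ^ c) ((3 ^ c - 1) / 2) (by positivity) hX hstab w w' hne
  set C : Subgroup G := MulAction.stabilizer G w ⊓ MulAction.stabilizer G w' with hCdef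
  have hmem : ∀ g : G, g ∈ C ↔ g • w = w ∧ g • w' = w' := fun g => Subgroup.mem_inf
  have hcomm := C2_comm _ C (hLL.stab w) inf_le_left _ hb.1 hC
  have hpowC : ∀ g ∈ C, g ^ ((3 ^ c - 1) / 2) = 1 := by
    intro g hg
    rw [← hC]
    exact C2_pow C g hg
  have hφC : ∀ g ∈ C, φ g ∈ C := by
    intro g hg
    rw [hmem] at hg ⊢
    exact ⟨hw _ hg.1, hstw' _ hg.2⟩
  -- an involution swapping the two points
  obtain ⟨g0, hg1, hg2⟩ := hT w w' w' w (Ne.symm hne) hne
  have hg0C : g0 * g0 ∈ C := by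
    rw [hmem]
    exact ⟨by rw [mul_smul, hg1, hg2], by rw [mul_smul, hg2, hg1]⟩
  obtain ⟨m, hm⟩ := hbodd
  obtain ⟨s, hs⟩ : ∃ s : G, s = g0 ^ ((3 ^ c - 1) / 2) := ⟨_, rfl⟩
  have hs' : s = g0 * (g0 * g0) ^ m := by
    rw [hs, hm, pow_succ', pow_mul, sq]
  have hgm : (g0 * g0) ^ m ∈ C := C.pow_mem hg0C m
  have hsw : s • w = w' := by
    rw [hs', mul_smul, ((hmem _).1 hgm).1, hg1]
  have hsw' : s • w' = w := by
    rw [hs', mul_smul, ((hmem _).1 hgm).2, hg2]
  have hss : s * s = 1 := by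
    rw [hs, ← pow_add, ← two_mul, pow_mul, sq]
    exact hpowC _ hg0C
  have hsinv : IsInv s := by
    refine ⟨hss, fun h1 => hne ?_⟩
    rw [← hsw, h1, one_smul]
  have hs1 : s⁻¹ = s := inv_eq_of_mul_eq_one_left hss
  have hsC : ∀ g ∈ C, s * g * s⁻¹ ∈ C := by
    intro g hg
    rw [hmem] at hg ⊢
    rw [hs1]
    constructor
    · rw [mul_smul, mul_smul, hsw, hg.2, hsw']
    · rw [mul_smul, mul_smul, hsw', hg.1, hsw]
  -- `s` inverts `C`
  have hinv : ∀ g ∈ C, s * g * s⁻¹ = g⁻¹ := by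
    intro g hg
    have hd : g * (s * g * s⁻¹) ∈ C := C.mul_mem hg (hsC g hg)
    have hds : (g * (s * g * s⁻¹)) * s = s * (g * (s * g * s⁻¹)) := by
      have h1 : s * (g * (s * g * s⁻¹)) = ((s * g * s⁻¹) * (s * s * g * s⁻¹ * s⁻¹)) * s := by
        group
      rw [h1, hss, one_mul, mul_assoc g s⁻¹ s⁻¹, ← mul_inv_rev, hss, inv_one, mul_one,
        hcomm g hg _ (hsC g hg)]
    have h1 : (g * (s * g * s⁻¹)) ^ Nat.card X = 1 := by
      rw [← hcent s hsinv]
      have h2 : Nat.card {g : G // g * s = s * g} = Nat.card (Subgroup.centralizer ({s} : Set G)) := by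
        refine Nat.card_congr (Equiv.subtypeEquivRight fun x => ?_)
        rw [Subgroup.mem_centralizer_singleton_iff]
      have h3 : g * (s * g * s⁻¹) ∈ Subgroup.centralizer ({s} : Set G) := by
        rw [Subgroup.mem_centralizer_singleton_iff]
        exact hds
      rw [h2]
      exact C2_pow _ _ h3
    have h2 : (g * (s * g * s⁻¹)) ^ Nat.card (MulAction.stabilizer G w) = 1 := by
      rw [hstab, mul_comm, pow_mul, hpowC _ hd, one_pow]
    have h3 := C2_cop _ _ _ (hLL.copr w) h2 h1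
    exact eq_inv_of_mul_eq_one_right h3
  by_cases hcase : ∃ g ∈ C, g * φ g ≠ 1
  · obtain ⟨g, hg, hg1⟩ := hcase
    refine ⟨g * φ g, 1, hg1, hpowC _ (C.mul_mem hg (hφC g hg)), ?_⟩
    rw [map_mul, hφ, hcomm g hg _ (hφC g hg)]
    group
  · push Not at hcase
    have h1 : ∃ g ∈ C, g ≠ 1 := by
      by_contra hcon
      push Not at hcon
      have h2 : C = ⊥ := (Subgroup.eq_bot_iff_forall _).2 hcon
      rw [h2] at hC
      simp at hC
      omega
    obtain ⟨g, hg, hg1⟩ := h1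
    refine ⟨g, s, hg1, hpowC g hg, ?_⟩
    rw [hinv g hg]
    exact eq_inv_of_mul_eq_one_right (hcase g hg)

theorem C2_syl {G X : Type} [Group G] [MulAction G X] {B : Subgroup G} (hLL : LL G X B)
    (c : ℕ) (hc3 : 3 ≤ c) (hX : Nat.card X = 3 ^ c + 1) (x : X)
    (hstab : ∀ α : X, Nat.card (MulAction.stabilizer G α) = 3 ^ c * ((3 ^ c - 1) / 2))
    [Fact (Nat.Prime 3)] (P : Sylow 3 G) : Nat.card (P : Subgroup G) = 3 ^ c := by
  have := hLL.finL
  have := hLL.trans
  have hb := C2_b3 c hc3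
  have h3c : 3 ∣ 3 ^ c := dvd_pow_self 3 (by omega)
  have hcard : Nat.card G = (3 ^ c + 1) * (3 ^ c * ((3 ^ c - 1) / 2)) := by
    have h1 := C2_orb (G := G) x
    rw [hstab, MulAction.orbit_eq_univ, Nat.card_coe_set_eq, Set.ncard_univ, hX] at h1
    exact h1.symm
  rw [P.card_eq_multiplicity, hcard]
  congr 1
  have hp1 : (3 ^ c + 1) ≠ 0 := by positivity
  have hp2 : 3 ^ c ≠ 0 := by positivity
  have hp3 : (3 ^ c - 1) / 2 ≠ 0 := by omega
  rw [Nat.factorization_mul hp1 (mul_ne_zero hp2 hp3),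
    Nat.factorization_mul hp2 hp3, Finsupp.add_apply, Finsupp.add_apply,
    Nat.factorization_pow]
  have h1 : (3 ^ c + 1).factorization 3 = 0 := by
    apply Nat.factorization_eq_zero_of_not_dvd
    omega
  have h2 : ((3 ^ c - 1) / 2).factorization 3 = 0 := Nat.factorization_eq_zero_of_not_dvd hb.1
  rw [h1, h2]
  simp [Nat.Prime.factorization Nat.prime_three]

/-- Frattini argument -/
theorem C2_frat {G : Type} [Group G] [Finite G] [Fact (Nat.Prime 3)] (P : Sylow 3 G)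
    (φ : MulAut G) : ∃ e : G, ∀ p : G, p ∈ P ↔ e⁻¹ * φ p * e ∈ P := by
  obtain ⟨e, he⟩ := MulAction.exists_smul_eq G P (φ • P)
  refine ⟨e, fun p => ?_⟩
  have h1 : p ∈ P ↔ φ p ∈ φ • P := by
    have h2 : φ p = φ • p := rfl
    rw [h2]
    exact (Subgroup.smul_mem_pointwise_smul_iff (a := φ) (S := (P : Subgroup G))).symm
  rw [h1, ← he]
  have h3 : φ p ∈ e • P ↔ (MulAut.conj e)⁻¹ • (φ p) ∈ (P : Subgroup G) := by
    have h4 : ((e • P : Sylow 3 G) : Subgroup G) = MulAut.conj e • (P : Subgroup G) := rfl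
    have h5 : φ p ∈ e • P ↔ φ p ∈ MulAut.conj e • (P : Subgroup G) := by
      rw [← h4]
      rfl
    rw [h5]
    exact Subgroup.mem_pointwise_smul_iff_inv_smul_mem
  rw [h3]
  have h6 : (MulAut.conj e)⁻¹ • (φ p) = e⁻¹ * φ p * e := by
    rw [← map_inv]
    simp [MulAut.smul_def]
  rw [h6]
  rfl

theorem C2_K (hPLL : PLL_stmt) (hP4 : P4_stmt) (hP7 : P7_stmt)
    (L Ω : Type) [Group L] [MulAction L Ω] (A E : Subgroup L) (t ρ : L)
    (h : CaseC L Ω A E t ρ) (s : L) (hs : s * ρ = ρ * s) (hsE : s * s ∈ E) : s ∈ E := by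
  classical
  by_contra hnE
  have hPL := hPLL L Ω A h.LL
  have := h.LL.finL
  have := h.LL.finΩ
  obtain ⟨α⟩ := hPL.nonempty
  have hEC := h.EC α
  have hEG := h.EG α
  obtain ⟨c, hc, hc3, hX, hstab⟩ := hEG.card
  have := hEC.trans
  have hb := C2_b3 c hc3
  have h8 := C2_b2 c hc
  have : Fact (Nat.Prime 3) := ⟨Nat.prime_three⟩
  have h3c : 3 ∣ 3 ^ c := dvd_pow_self 3 (by omega)
  -- conjugation by an element of `C(ρ)` as an automorphism of `E`
  have hnorm : ∀ x : L, x * ρ = ρ * x → ∀ g : L, g ∈ E → x * g * x⁻¹ ∈ E := h.Enorm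
  have hinvc : ∀ x : L, x * ρ = ρ * x → x⁻¹ * ρ = ρ * x⁻¹ := by
    intro x hx
    have h1 : Commute x ρ := hx
    exact h1.inv_left
  have haut : ∀ x : L, x * ρ = ρ * x → ∃ φ : MulAut E, ∀ g : E, (φ g : L) = x * g * x⁻¹ := by
    intro x hx
    refine ⟨⟨⟨fun g => ⟨x * g * x⁻¹, hnorm x hx g g.2⟩,
      fun g => ⟨x⁻¹ * g * x, ?_⟩, ?_, ?_⟩, ?_⟩, ?_⟩
    · have := hnorm x⁻¹ (hinvc x hx) g g.2
      rwa [inv_inv] at this
    · intro g
      apply Subtype.ext
      show x⁻¹ * (x * (g : L) * x⁻¹) * x = g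
      group
    · intro g
      apply Subtype.ext
      show x * (x⁻¹ * (g : L) * x) * x⁻¹ = g
      group
    · intro g g'
      apply Subtype.ext
      show x * ((g : L) * g') * x⁻¹ = (x * g * x⁻¹) * (x * g' * x⁻¹)
      group
    · intro g
      rfl
  -- a Sylow 3-subgroup of `E`
  let P : Sylow 3 E := default
  have hPcard : Nat.card (P : Subgroup E) = 3 ^ c :=
    C2_syl hEC c hc3 hX ⟨α, MulAction.mem_orbit_self α⟩ hstab P
  obtain ⟨w, hw⟩ := C2_norm hEC hEG.two c hc3 hX hstab P hPcard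
  -- Frattini
  obtain ⟨φs, hφs⟩ := haut s hs
  obtain ⟨e, he⟩ := C2_frat P φs
  obtain ⟨y, hy⟩ : ∃ y : L, y = (e : L)⁻¹ * s := ⟨_, rfl⟩
  have heρ : (e : L)⁻¹ * ρ = ρ * (e : L)⁻¹ := hinvc _ (h.Ecent e e.2)
  have hyρ : y * ρ = ρ * y := by
    have h1 : Commute ((e : L)⁻¹) ρ := heρ
    have h2 : Commute s ρ := hs
    rw [hy]
    exact h1.mul_left h2
  have hyE : y ∉ E := by
    intro h1
    apply hnE
    have h2 : s = e * y := by rw [hy]; group
    rw [h2]
    exact E.mul_mem e.2 h1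
  have hsq : ∀ (g x : L), g ∈ E → x * ρ = ρ * x → x * x ∈ E → (g * x) * (g * x) ∈ E := by
    intro g x hg hx hxx
    have h1 : (g * x) * (g * x) = g * (x * g * x⁻¹) * (x * x) := by group
    rw [h1]
    exact E.mul_mem (E.mul_mem hg (hnorm x hx g hg)) hxx
  have hyyE : y * y ∈ E := by
    rw [hy]
    exact hsq _ _ (E.inv_mem e.2) hs hsE
  obtain ⟨φy, hφy⟩ := haut y hyρ
  have hyP : ∀ p : E, p ∈ (P : Subgroup E) ↔ φy p ∈ (P : Subgroup E) := by
    intro p
    have h1 : φy p = e⁻¹ * φs p * e := by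
      apply Subtype.ext
      rw [hφy, hy]
      show _ = (e : L)⁻¹ * (φs p : L) * (e : L)
      rw [hφs]
      group
    rw [h1]
    exact he p
  -- `y * y` fixes `w`
  have hyyw : (⟨y * y, hyyE⟩ : E) • w = w := by
    rw [hw]
    intro p hp
    have h1 : (⟨y * y, hyyE⟩ : E) * p * (⟨y * y, hyyE⟩ : E)⁻¹ = φy (φy p) := by
      apply Subtype.ext
      rw [hφy, hφy]
      show y * y * (p : L) * (y * y)⁻¹ = _
      group
    rw [h1]
    exact (hyP _).1 ((hyP _).1 hp)
  obtain ⟨k, hk⟩ : ∃ k : ℕ, k = 3 ^ c * ((3 ^ c - 1) / 2) := ⟨_, rfl⟩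
  have hkodd : Odd k := by
    rw [hk]
    refine Odd.mul (Odd.pow (by decide)) ?_
    rw [Nat.odd_iff]
    omega
  have hyk : (y * y) ^ k = 1 := by
    have h1 := C2_pow (MulAction.stabilizer E w) (⟨y * y, hyyE⟩ : E) hyyw
    rw [hstab, ← hk] at h1
    exact congrArg Subtype.val h1
  obtain ⟨x, hx⟩ : ∃ x : L, x = y ^ k := ⟨_, rfl⟩
  have hxx : x * x = 1 := by
    rw [hx, ← pow_add, ← two_mul, pow_mul, sq, hyk]
  have hxρ : x * ρ = ρ * x := by
    have h1 : Commute y ρ := hyρ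
    rw [hx]
    exact h1.pow_left k
  have hodd : ∀ (z : L), z ∉ E → z * z ∈ E → ∀ n : ℕ, Odd n → z ^ n ∉ E := by
    intro z hz hzz n hn hzn
    obtain ⟨m, rfl⟩ := hn
    apply hz
    have h1 : z = ((z * z) ^ m)⁻¹ * z ^ (2 * m + 1) := by
      rw [pow_succ, pow_mul, sq]
      group
    rw [h1]
    exact E.mul_mem (E.inv_mem (E.pow_mem hzz m)) hzn
  have hxE : x ∉ E := by
    rw [hx]
    exact hodd y hyE hyyE k hkodd
  -- `x` normalises `P`
  obtain ⟨φx, hφx⟩ := haut x hxρ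
  have hφyn : ∀ n : ℕ, ∀ p : E, p ∈ (P : Subgroup E) → ∀ q : E, (q : L) = y ^ n * p * (y ^ n)⁻¹ →
      q ∈ (P : Subgroup E) := by
    intro n
    induction n with
    | zero =>
      intro p hp q hq
      have : q = p := Subtype.ext (by rw [hq]; group)
      rw [this]
      exact hp
    | succ n ih =>
      intro p hp q hq
      have h1 : q = φy (⟨y ^ n * p * (y ^ n)⁻¹, hnorm _ (by
        have h1 : Commute y ρ := hyρ
        exact h1.pow_left n) p p.2⟩) := by
        apply Subtype.ext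
        rw [hφy, hq, pow_succ']
        show _ = y * (y ^ n * (p : L) * (y ^ n)⁻¹) * y⁻¹
        group
      rw [h1]
      exact (hyP _).1 (ih p hp _ rfl)
  have hxP : ∀ p : E, p ∈ (P : Subgroup E) → φx p ∈ (P : Subgroup E) := by
    intro p hp
    refine hφyn k p hp _ ?_
    rw [hφx, hx]
  have hφxx : ∀ g : E, φx (φx g) = g := by
    intro g
    apply Subtype.ext
    rw [hφx, hφx]
    have h1 : x * (x * (g : L) * x⁻¹) * x⁻¹ = (x * x) * g * (x * x)⁻¹ := by group
    rw [h1, hxx]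
    group
  have hxw : ∀ g : E, g • w = w → φx g • w = w := by
    intro g hg
    rw [hw] at hg ⊢
    intro p hp
    have h1 : φx g * p * (φx g)⁻¹ = φx (g * φx p * g⁻¹) := by
      rw [map_mul, map_mul, map_inv, hφxx]
    rw [h1]
    exact hxP _ (hg _ (hxP p hp))
  obtain ⟨c0, s0, hc0, hc0b, hc0s⟩ := C2_main hEC hEG.two hEG.cent c hc hc3 hX hstab φx hφxx w hxw
  -- the element `z`
  obtain ⟨z, hz⟩ : ∃ z : L, z = (s0 : L)⁻¹ * x := ⟨_, rfl⟩
  have hzE : z ∉ E := by
    intro h1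
    apply hxE
    have h2 : x = s0 * z := by rw [hz]; group
    rw [h2]
    exact E.mul_mem s0.2 h1
  have hzz : z * z ∈ E := by
    rw [hz]
    exact hsq _ _ (E.inv_mem s0.2) hxρ (by rw [hxx]; exact E.one_mem)
  have hzc : z * (c0 : L) = c0 * z := by
    have h1 : x * (c0 : L) * x⁻¹ = s0 * c0 * (s0 : L)⁻¹ := by
      rw [← hφx, hc0s]
      rfl
    have h2 : x * (c0 : L) = s0 * c0 * (s0 : L)⁻¹ * x := by
      rw [← h1]
      group
    rw [hz, mul_assoc, h2]
    group
  have hzeven : Even (orderOf z) := by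
    rw [← Nat.not_odd_iff_even]
    intro h1
    have h2 := hodd z hzE hzz _ h1
    rw [pow_orderOf_eq_one] at h2
    exact h2 E.one_mem
  obtain ⟨m, hm⟩ := hzeven
  have hzpos : 0 < orderOf z := orderOf_pos z
  have hu : IsInv (z ^ m) := by
    constructor
    · rw [← pow_add, ← hm, pow_orderOf_eq_one]
    · intro h1
      have h2 := orderOf_dvd_of_pow_eq_one h1
      have h3 := Nat.le_of_dvd (by omega) h2
      omega
  have huc : (c0 : L) * z ^ m = z ^ m * c0 := by
    have h1 : Commute (c0 : L) z := hzc.symm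
    exact h1.pow_right m
  -- contradiction
  obtain ⟨ν, hν, hν1, hν2, hν3, hν4⟩ := hP4 L Ω A hPL
  obtain ⟨j, hj⟩ := hP7 L Ω A hPL (z ^ m) α hu
  rw [hν1 _ _ hu] at hj
  have hcard := hν2 _ hu
  rw [hj] at hcard
  have h1 : (c0 : L) ^ (3 ^ j * Nat.card Ω) = 1 := by
    rw [← hcard]
    have h2 : Nat.card {g : L // g * z ^ m = z ^ m * g} =
        Nat.card (Subgroup.centralizer ({z ^ m} : Set L)) := by
      refine Nat.card_congr (Equiv.subtypeEquivRight fun x => ?_)
      rw [Subgroup.mem_centralizer_singleton_iff]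
    rw [h2]
    refine C2_pow _ _ ?_
    rw [Subgroup.mem_centralizer_singleton_iff]
    exact huc
  have h2 : (c0 : L) ^ ((3 ^ c - 1) / 2) = 1 := congrArg Subtype.val hc0b
  have h3 : Nat.Coprime ((3 ^ c - 1) / 2) (3 ^ j * Nat.card Ω) := by
    refine Nat.Coprime.mul_right ?_ ?_
    · exact Nat.Coprime.pow_right j
        ((Nat.Prime.coprime_iff_not_dvd Nat.prime_three).2 hb.1).symm
    · have h4 := h.LL.copr α
      refine Nat.Coprime.coprime_dvd_left ?_ h4
      have h5 : (3 ^ c - 1) / 2 ∣ Nat.card (MulAction.stabilizer E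
          (⟨α, MulAction.mem_orbit_self α⟩ : MulAction.orbit E α)) := by
        rw [hstab]
        exact dvd_mul_left _ _
      refine dvd_trans h5 ?_
      have h6 : Nat.card (MulAction.stabilizer E
          (⟨α, MulAction.mem_orbit_self α⟩ : MulAction.orbit E α)) =
          Nat.card ((MulAction.stabilizer E
          (⟨α, MulAction.mem_orbit_self α⟩ : MulAction.orbit E α)).map E.subtype) :=
        (Subgroup.card_map_of_injective E.subtype_injective).symm
      rw [h6]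
      apply Subgroup.card_dvd_of_le
      rintro g ⟨g', hg', rfl⟩
      have h7 : g' • (⟨α, MulAction.mem_orbit_self α⟩ : MulAction.orbit E α) =
        ⟨α, MulAction.mem_orbit_self α⟩ := hg'
      have h8 := congrArg Subtype.val h7
      exact h8
  exact hc0 (Subtype.ext (C2_cop _ _ _ h3 h2 h1))

theorem C2 (hPLL : PLL_stmt) (hAB : AB_stmt) (hP1 : P1_stmt) (hP4 : P4_stmt) (hP7 : P7_stmt) :
    C2_stmt := by
  classical
  intro L Ω _ _ A E t ρ h
  have hK := C2_K hPLL hP4 hP7 L Ω A E t ρ h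
  have hPL := hPLL L Ω A h.LL
  have := h.LL.finL
  have := h.LL.finΩ
  obtain ⟨α⟩ := hPL.nonempty
  have hcyc := h.LL.cyc
  obtain ⟨hAB1, hAB2, hAB3, hAB4, ⟨n, hn⟩, hAB6, hAB7, hAB8, hAB9, hAB10⟩ := hAB L A hcyc
  have hρA : ρ ∈ A := ((hAB1 ρ).1 h.mem).1
  have hcommA : ∀ a ∈ A, a * ρ = ρ * a := by
    intro a ha
    obtain ⟨g, hg⟩ := hcyc.exists_generator
    obtain ⟨i, hi⟩ := hg ⟨a, ha⟩
    obtain ⟨j, hj⟩ := hg ⟨ρ, hρA⟩
    have hi' : (g : L) ^ i = a := congrArg Subtype.val hi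
    have hj' : (g : L) ^ j = ρ := congrArg Subtype.val hj
    rw [← hi', ← hj', ← zpow_add, ← zpow_add, add_comm]
  refine ⟨?_, ?_, ?_⟩
  · have hle : twoPart A ≤ A ⊓ E := by
      intro a ha
      obtain ⟨haA, m, hm⟩ := (hAB2 a).1 ha
      refine ⟨haA, ?_⟩
      have h1 : ∀ m : ℕ, ∀ b ∈ A, b ^ (2 ^ m) = 1 → b ∈ E := by
        intro m
        induction m with
        | zero =>
          intro b hb hbm
          rw [pow_zero, pow_one] at hbm
          rw [hbm]
          exact E.one_mem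
        | succ m ih =>
          intro b hb hbm
          apply hK b (hcommA b hb)
          apply ih (b * b) (A.mul_mem hb hb)
          rw [← sq, ← pow_mul, ← pow_succ']
          exact hbm
      exact h1 m a haA hm
    have hdvd := Subgroup.card_dvd_of_le hle
    have hcardAE : 2 * Nat.card (A ⊓ E : Subgroup L) = Nat.card (MulAction.orbit E α) := by
      rw [← (h.EC α).cardA]
      congr 1
      refine Nat.card_congr ⟨fun g => ⟨⟨g, (Subgroup.mem_inf.1 g.2).2⟩, ?_⟩,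
        fun g => ⟨((g : E) : L), ?_⟩, ?_, ?_⟩
      · exact (Subgroup.mem_inf.1 g.2).1
      · exact Subgroup.mem_inf.2 ⟨g.2, (g : E).2⟩
      · intro g
        rfl
      · intro g
        rfl
    obtain ⟨c, hc, hc3, hX, hstab⟩ := (h.EG α).card
    have h8 := C2_b2 c hc
    rw [hX] at hcardAE
    rw [hn] at hdvd ⊢
    have hn1 : n ≤ 1 := by
      by_contra hn2
      have h1 : 2 ^ 2 ∣ 2 ^ n := Nat.pow_dvd_pow 2 (by omega)
      have h2 := dvd_trans h1 hdvd
      obtain ⟨q, hq⟩ := h2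
      omega
    have hn0 : n ≠ 0 := by
      intro h0
      rw [h0, pow_zero] at hn
      obtain ⟨⟨τ, hτA, hτ⟩, _⟩ := hP1 L Ω A hPL
      have h1 : τ ∈ twoPart A := (hAB2 τ).2 ⟨hτA, 1, by rw [pow_one, sq]; exact hτ.1⟩
      have h2 : twoPart A = ⊥ := Subgroup.eq_bot_of_card_eq _ hn
      rw [h2, Subgroup.mem_bot] at h1
      exact hτ.2 h1
    have : n = 1 := by omega
    rw [this, pow_one]
  · exact hK t h.comm (by rw [h.dih.1]; exact E.one_mem)
  · intro s hs hsρ
    exact hK s hsρ (by rw [hs.1]; exact E.one_mem)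

end Pool.Agent.helper53.AU
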